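import Pool.Agent.Helper94.MinRam.Pent

/-!
The blow-up inequality for the smallest minimum degree `s(H)` of Ramsey-minimal graphs for `H`.
-/

set_option autoImplicit false

namespace Pool.Agent.Helper94.Retired.BlowUpBound

open Pool.Agent.Helper94.MinRam

theorem result (n m a : ℕ) (H : SimpleGraph (Fin n)) (F : SimpleGraph (Fin m)) (x : Fin m)
    (hH : H ≠ ⊥) (ha : StarBound H a)
    (hP : ∀ τ : Fin m → Fin m → Fin 2, (∀ p q, τ p q = τ q p) →
      ∃ (i : Fin 2) (φ : Fin n → Fin m),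
        ∀ u v, H.Adj u v → F.Adj (φ u) (φ v) ∧ τ (φ u) (φ v) = i)
    (hQ : ∃ τ : Fin m → Fin m → Fin 2, (∀ p q, τ p q = τ q p) ∧
      ∀ (i : Fin 2) (φ : Fin n → Fin m), (∀ u, φ u ≠ x) →
        ¬ ∀ u v, H.Adj u v → F.Adj (φ u) (φ v) ∧ τ (φ u) (φ v) = i) :
    HasMin H ((F.neighborSet x).ncard * (2 * a - 1)) :=
  blowup_star H hH ha F x hP hQ

end Pool.Agent.Helper94.Retired.BlowUpBound
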