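import Pool.Agent.Helper94.AS.Res

set_option autoImplicit false

namespace Pool.Agent.Helper94.Retired.Dominated

open Pool.SV Pool.AF

/-- **Closed convex affine manifolds whose linear action on the lineality space is dominated by
actions on convex cones or symmetric spaces of small dimension have zero simplicial volume.**

`X` is a nonempty open convex subset of `ℝ^(n+1)`, and `Γ` a group of affine automorphisms of
`ℝ^(n+1)` preserving `X` and acting on it freely, properly discontinuously and cocompactly; `V` is
the lineality space of `X`. A subgroup of finite index of `Γ` preserves a flag from `0` to `V`, and
acts linearly on spaces `ℝ^(d_j)`, preserving in each of them a nonempty open convex cone without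
lines (`n_j = d_j - 1`), or, up to positive factors, a totally geodesic submanifold of dimension
`n_j` of the space of the positive definite matrices of determinant one, where `∑ n_j ≤ dim V`
(and `< dim V` if `X` is the whole space), and such that the elements that are bounded up to
scalars on all the `ℝ^(d_j)` and bounded on `ℝ^(n+1) / V` are bounded up to scalars on the
quotients of the flag. `M` is the quotient `X / Γ`, a closed affine manifold of dimension `n + 1`.
Then every real singular cycle of degree `n + 1` of `M` is homologous to cycles of arbitrarily
small `ℓ¹`-norm. -/
theorem result (n : ℕ) (Γ : Subgroup (Aff (n + 1))) (X : Set (EuclideanSpace ℝ (Fin (n + 1))))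
    (hX : Divides Γ X) (hdom : VirtuallyDominated Γ X) (M : Type*)
    [TopologicalSpace M] (π : X → M) (hπ : IsOrbitSpace Γ X M π) : ZeroSeminorm M n :=
  resAS n Γ X hX hdom M π hπ

end Pool.Agent.Helper94.Retired.Dominated
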